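import Pool.Agent.MP_47bb2a_mp.H42.Tenth

/-! The cone of separable operators contains a ball around the identity. -/

open scoped ComplexOrder MatrixOrder Kronecker
open Matrix

set_option linter.unusedSectionVars false

namespace Pool.Agent.MP_47bb2a_mp.H90

open H97 H42

variable {A B : Type*} [Fintype A] [Fintype B] [DecidableEq A] [DecidableEq B]

/-- Nonnegative multiples of separable states. -/
def Cone (X : Matrix (A × B) (A × B) ℂ) : Prop := ∃ r : ℝ, 0 ≤ r ∧ ∃ σ ∈ Sep1 A B, X = r • σ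

variable {X Y G : Matrix (A × B) (A × B) ℂ}

theorem Cone.smul (h : Cone X) {r : ℝ} (hr : 0 ≤ r) : Cone (r • X) := by
  obtain ⟨s, s0, σ, h1, rfl⟩ := h
  exact ⟨r * s, mul_nonneg hr s0, σ, h1, smul_smul _ _ _⟩

theorem Cone.add (h : Cone X) (h' : Cone Y) : Cone (X + Y) := by
  obtain ⟨s, s0, σ, h1, rfl⟩ := h
  obtain ⟨t, t0, τ, h2, rfl⟩ := h'
  rcases (add_nonneg s0 t0).eq_or_lt with e | e
  · obtain rfl : s = 0 := by linarith
    obtain rfl : t = 0 := by linarith
    exact ⟨0, le_rfl, σ, h1, by simp⟩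
  refine ⟨s + t, e.le, _, convex_convexHull ℝ _ h1 h2 (div_nonneg s0 e.le) (div_nonneg t0 e.le)
    (by rw [← add_div, div_self e.ne']), ?_⟩
  rw [smul_add, smul_smul, smul_smul, mul_div_cancel₀ _ e.ne', mul_div_cancel₀ _ e.ne']

theorem Cone.sep (h : Cone X) (h' : 0 < tr X) : (tr X)⁻¹ • X ∈ Sep1 A B := by
  obtain ⟨s, s0, σ, h1, rfl⟩ := h
  have e : tr (s • σ) = s := by
    rw [map_smul, tr_def, (sep1_state h1).2, Complex.one_re, smul_eq_mul, mul_one]
  rw [e] at h' ⊢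
  rwa [inv_smul_smul₀ h'.ne']

theorem Cone.swap (h : Cone X) : Cone (X.submatrix Prod.swap Prod.swap) := by
  obtain ⟨s, s0, σ, h1, rfl⟩ := h
  refine ⟨s, s0, σ.submatrix Prod.swap Prod.swap, ?_, rfl⟩
  refine convexHull_min (t := {σ | σ.submatrix Prod.swap Prod.swap ∈ Sep1 B A}) ?_ ?_ h1
  · rintro _ ⟨α, β, h1, h2, rfl⟩
    refine subset_convexHull _ _ ⟨β, α, h2, h1, ?_⟩
    ext x y
    exact mul_comm _ _
  · intro x hx y hy a b ha hb e
    exact convex_convexHull ℝ _ hx hy ha hb e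

variable [Nonempty A] [Nonempty B]

theorem cone_zero : Cone (0 : Matrix (A × B) (A × B) ℂ) :=
  ⟨0, le_rfl, _, base_sep1.one, (zero_smul _ _).symm⟩

theorem cone_kron {a : Matrix A A ℂ} {b : Matrix B B ℂ} (ha : a.PosSemidef) (hb : b.PosSemidef) :
    Cone (a ⊗ₖ b) := by
  rcases (tr_nn ha.nonneg).eq_or_lt with e | e
  · rw [ha.trace_eq_zero_iff.1 (by rw [tr_eq ha.nonneg, ← e, Complex.ofReal_zero]), zero_kronecker]
    exact cone_zero
  rcases (tr_nn hb.nonneg).eq_or_lt with e' | e'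
  · rw [hb.trace_eq_zero_iff.1 (by rw [tr_eq hb.nonneg, ← e', Complex.ofReal_zero]), kronecker_zero]
    exact cone_zero
  refine ⟨tr a * tr b, (mul_pos e e').le, _, subset_convexHull _ _ ⟨_, _, norm_state ha.nonneg e,
    norm_state hb.nonneg e', rfl⟩, ?_⟩
  rw [smul_kronecker, kronecker_smul, smul_smul, smul_smul, mul_assoc, ← mul_inv,
    mul_inv_cancel₀ (mul_pos e e').ne', one_smul]

theorem cone_one : Cone (1 : Matrix (A × B) (A × B) ℂ) := by
  rw [← one_kronecker_one]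
  exact cone_kron PosSemidef.one PosSemidef.one

theorem cone_sum {ι : Type*} (s : Finset ι) {f : ι → Matrix (A × B) (A × B) ℂ}
    (h : ∀ i ∈ s, Cone (f i)) : Cone (∑ i ∈ s, f i) :=
  Finset.sum_induction f Cone (fun _ _ => Cone.add) cone_zero h

theorem Cone.conj (h : Cone X) (a : Matrix A A ℂ) (b : Matrix B B ℂ) :
    Cone (a ⊗ₖ b * X * (a ⊗ₖ b)ᴴ) := by
  obtain ⟨s, s0, σ, h1, rfl⟩ := h
  rw [mul_smul_comm, smul_mul_assoc]
  refine Cone.smul ?_ s0
  refine convexHull_min (t := {σ | Cone (a ⊗ₖ b * σ * (a ⊗ₖ b)ᴴ)}) ?_ ?_ h1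
  · rintro _ ⟨α, β, h1, h2, rfl⟩
    rw [Set.mem_ofPred_eq, conjTranspose_kronecker, ← mul_kronecker_mul, ← mul_kronecker_mul]
    exact cone_kron (h1.1.mul_mul_conjTranspose_same a) (h2.1.mul_mul_conjTranspose_same b)
  · intro x hx y hy r t hr ht _
    rw [Set.mem_ofPred_eq, mul_add, add_mul, mul_smul_comm, smul_mul_assoc, mul_smul_comm,
      smul_mul_assoc]
    exact (Cone.smul hx hr).add (Cone.smul hy ht)

/-- The operator with identity blocks at `(i, i)`, `(j, j)` and the block `V` at `(i, j)`. -/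
def pr (i j : A) (V : Matrix B B ℂ) : Matrix (A × B) (A × B) ℂ :=
  (single i i 1 + single j j 1) ⊗ₖ 1 + single i j 1 ⊗ₖ V + single j i 1 ⊗ₖ Vᴴ

theorem cone_unit (i j : A) {U : Matrix (B ⊕ B) (B ⊕ B) ℂ} (hU : U ∈ unitary _) :
    Cone (pr i j (U.submatrix Sum.inl Sum.inl)) := by
  obtain ⟨T, P, h1, h2, h3⟩ := exists_povm hU
  let v : ℂ → A → ℂ := fun z => Pi.single i 1 + star z • Pi.single j 1
  have e : ∀ z ∈ T, vecMulVec (v z) (star (v z)) =
      single i i 1 + single j j 1 + z • single i j 1 + star z • single j i 1 := fun z hz => by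
    have : star z * z = 1 := by
      rw [RCLike.star_def, Complex.conj_mul', (h1 z hz).1]
      simp
    simp only [v, star_add, star_smul, star_star, Pi.star_single, star_one, add_vecMulVec,
      vecMulVec_add, smul_vecMulVec, vecMulVec_smul, ← single_eq_single_vecMulVec_single,
      smul_add, smul_smul, this, mul_comm z, one_smul]
    abel
  have := cone_sum T fun z hz => cone_kron (posSemidef_vecMulVec_self_star (v z))
    ((h1 z hz).2.submatrix Sum.inl)
  rw [Finset.sum_congr rfl fun z hz => by rw [e z hz]] at this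
  convert this using 1
  have e1 : (1 : Matrix B B ℂ) = ∑ z ∈ T, (P z).submatrix Sum.inl Sum.inl := by
    ext x y
    simpa [Matrix.sum_apply, one_apply] using
      (congrFun (congrFun h2 (Sum.inl x)) (Sum.inl y)).symm
  have e2 : U.submatrix Sum.inl Sum.inl = ∑ z ∈ T, z • (P z).submatrix Sum.inl Sum.inl := by
    ext x y
    simp [← h3, Matrix.sum_apply]
  have e3 : (U.submatrix Sum.inl Sum.inl)ᴴ =
      ∑ z ∈ T, star z • (P z).submatrix Sum.inl Sum.inl := by
    rw [e2, conjTranspose_sum]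
    exact Finset.sum_congr rfl fun z hz => by
      rw [conjTranspose_smul, ((h1 z hz).2.submatrix Sum.inl).1.eq]
  rw [pr, e3, e2]
  nth_rewrite 1 [e1]
  ext x y
  simp only [Matrix.add_apply, kroneckerMap_apply, Matrix.sum_apply, Matrix.smul_apply,
    smul_eq_mul, Finset.mul_sum, ← Finset.sum_add_distrib]
  exact Finset.sum_congr rfl fun _ _ => by ring

theorem cone_pr (i j : A) {V : Matrix B B ℂ}
    (hV : ∀ x y, 2 * (star x ⬝ᵥ V *ᵥ y).re ≤ nsq x + nsq y) : Cone (pr i j V) := by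
  have hq : ∀ v, q (fromBlocks 0 V Vᴴ 0) v = 2 * (star (v ∘ Sum.inl) ⬝ᵥ V *ᵥ (v ∘ Sum.inr)).re ∧
      nsq v = nsq (v ∘ Sum.inl) + nsq (v ∘ Sum.inr) := fun v => by
    refine ⟨?_, by simp [nsq]⟩
    have e : (star (v ∘ Sum.inr) ⬝ᵥ Vᴴ *ᵥ (v ∘ Sum.inl)).re =
        (star (v ∘ Sum.inl) ⬝ᵥ V *ᵥ (v ∘ Sum.inr)).re := by
      rw [dot_ct, Complex.conj_re]
    rw [q, fromBlocks_mulVec, two_mul]
    nth_rewrite 2 [← e]
    simp [dotProduct]
  have hH : (fromBlocks 0 V Vᴴ 0).IsHermitian := by simp [IsHermitian, fromBlocks_conjTranspose]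
  obtain ⟨W, hW, e⟩ := exists_unitary (D := fromBlocks 0 V Vᴴ 0)
    (psd_of_q (isHermitian_one.add hH) fun v => by
      have := hV (-(v ∘ Sum.inl)) (v ∘ Sum.inr)
      rw [q_add, q_one, (hq v).1, (hq v).2]
      simp only [star_neg, neg_dotProduct, Complex.neg_re, nsq, Pi.neg_apply, norm_neg] at this ⊢
      linarith)
    (psd_of_q (isHermitian_one.sub hH) fun v => by
      rw [q_sub, q_one, (hq v).1, (hq v).2]
      linarith [hV (v ∘ Sum.inl) (v ∘ Sum.inr)])
  have hJ : (fromBlocks 0 1 1 0 : Matrix (B ⊕ B) (B ⊕ B) ℂ) ∈ unitary _ := by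
    simp [Unitary.mem_iff, star_eq_conjTranspose, fromBlocks_conjTranspose, fromBlocks_multiply]
  have a3 : V = (fromBlocks 0 V Vᴴ 0 * fromBlocks 0 1 1 0 :
      Matrix (B ⊕ B) (B ⊕ B) ℂ).submatrix Sum.inl Sum.inl := by
    ext x y
    simp [fromBlocks_multiply]
  have a1 := (cone_unit i j (mul_mem hW hJ)).add
    (cone_unit i j (mul_mem (Unitary.star_mem hW) hJ))
  rw [e, smul_mul_assoc, add_mul, submatrix_smul, Pi.smul_apply, Pi.smul_apply, submatrix_add,
    Pi.add_apply, Pi.add_apply] at a3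
  convert a1.smul (r := 1 / 2) (by norm_num) using 1
  rw [a3, star_eq_conjTranspose]
  simp only [pr, conjTranspose_smul, conjTranspose_add, star_trivial, kronecker_smul,
    kronecker_add]
  module

/-- The product of two vectors. -/
def pv (x : A → ℂ) (y : B → ℂ) : A × B → ℂ := fun p => x p.1 * y p.2

/-- A bound for the matrix elements between orthogonal product vectors. -/
def Orth (κ : ℝ) (G : Matrix (A × B) (A × B) ℂ) : Prop :=
  ∀ x y x' y', nsq x = 1 → nsq y = 1 → nsq x' = 1 → nsq y' = 1 →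
    (star x ⬝ᵥ x') * (star y ⬝ᵥ y') = 0 → (star (pv x y) ⬝ᵥ G *ᵥ pv x' y').re ≤ κ

theorem Orth.swap {κ : ℝ} (h : Orth κ G) : Orth κ (G.submatrix Prod.swap Prod.swap) := by
  intro x y x' y' h1 h2 h3 h4 h5
  refine le_of_eq_of_le ?_ (h y x y' x' h2 h1 h4 h3 (by rwa [mul_comm]))
  simp only [dotProduct, mulVec, submatrix_apply, Pi.star_apply, pv, Fintype.sum_prod_type,
    Prod.swap_prod_mk]
  congr 1
  rw [Finset.sum_comm]
  refine Finset.sum_congr rfl fun _ _ => Finset.sum_congr rfl fun _ _ => ?_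
  rw [Finset.sum_comm, mul_comm (x _)]
  simp only [mul_comm (x' _)]

theorem Orth.blk {κ : ℝ} (h : Orth κ G) (k0 : 0 < κ) {i j : A} (hij : i ≠ j) (x y : B → ℂ) :
    2 * (star x ⬝ᵥ (κ⁻¹ • G.submatrix (Prod.mk i) (Prod.mk j)) *ᵥ y).re ≤ nsq x + nsq y := by
  have n : ∀ x : B → ℂ, 0 < nsq x → ∃ (s : ℝ) (u : B → ℂ), 0 < s ∧ nsq u = 1 ∧ x = s • u ∧
      nsq x = s ^ 2 := fun x hx => by
    have s0 := Real.sqrt_pos.2 hx
    refine ⟨√(nsq x), (√(nsq x))⁻¹ • x, s0, ?_, (smul_inv_smul₀ s0.ne' x).symm,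
      (Real.sq_sqrt hx.le).symm⟩
    have : nsq ((√(nsq x))⁻¹ • x) = (√(nsq x))⁻¹ ^ 2 * nsq x := by
      simp only [nsq, Pi.smul_apply, norm_smul, mul_pow, Finset.mul_sum, Real.norm_eq_abs, sq_abs]
    rw [this, inv_pow, Real.sq_sqrt hx.le, inv_mul_cancel₀ hx.ne']
  rcases (nsq_nonneg x).eq_or_lt with hx | hx
  · obtain rfl := nsq_zero x hx
    simpa [← hx] using nsq_nonneg y
  rcases (nsq_nonneg y).eq_or_lt with hy | hy
  · obtain rfl := nsq_zero y hy
    simpa [← hy] using nsq_nonneg x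
  obtain ⟨s, u, s0, u1, e, e'⟩ := n x hx
  obtain ⟨t, v, t0, v1, f, f'⟩ := n y hy
  have o : ∀ i : A, nsq (Pi.single i 1 : A → ℂ) = 1 := fun i => by
    simp [nsq, Pi.single_apply, apply_ite]
  have := h (Pi.single i 1) u (Pi.single j 1) v (o i) u1 (o j) v1 (by simp [hij.symm])
  have e2 : star (pv (Pi.single i 1) u) ⬝ᵥ G *ᵥ pv (Pi.single j 1) v =
      star u ⬝ᵥ G.submatrix (Prod.mk i) (Prod.mk j) *ᵥ v := by
    simp [dotProduct, mulVec, pv, Fintype.sum_prod_type, Pi.single_apply, apply_ite,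
      Finset.sum_ite_irrel]
  rw [e2, ← inv_mul_le_one₀ k0] at this
  rw [e', f', e, f, smul_mulVec, mulVec_smul, star_smul, star_trivial, smul_dotProduct,
    dotProduct_smul, dotProduct_smul, Complex.smul_re, Complex.smul_re, Complex.smul_re]
  simp only [smul_eq_mul]
  nlinarith [mul_le_mul_of_nonneg_left this (mul_pos s0 t0).le, sq_nonneg (s - t)]

theorem ball {κ t : ℝ} (hG : G.PosSemidef) (h : Orth κ G) (k0 : 0 < κ) (t0 : 0 ≤ t)
    (ht : (Fintype.card A - 1) * (t * κ) ≤ 1) : Cone (1 + t • G) := by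
  have a1 := cone_sum Finset.univ fun i _ => cone_sum (Finset.univ.erase i) fun j hj =>
    cone_pr i j (h.blk k0 (Finset.ne_of_mem_erase hj).symm)
  have a2 := cone_sum (A := A) Finset.univ fun i _ => cone_kron (a := single i i 1)
    (by
      rw [single_eq_single_vecMulVec_single]
      simpa using posSemidef_vecMulVec_self_star (Pi.single i 1 : A → ℂ))
    (hG.submatrix (Prod.mk i))
  convert ((a1.smul (r := t * κ / 2) (by positivity)).add (a2.smul t0)).add
    (cone_one.smul (sub_nonneg.2 ht)) using 1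
  have s0 : ∀ i j : A, (G.submatrix (Prod.mk i) (Prod.mk j))ᴴ =
      G.submatrix (Prod.mk j) (Prod.mk i) := fun i j => by
    rw [conjTranspose_submatrix, hG.1.eq]
  have s1 : ∑ i : A, single i i (1 : ℂ) ⊗ₖ (1 : Matrix B B ℂ) = 1 := by
    ext ⟨i, k⟩ ⟨j, l⟩
    simp [Matrix.sum_apply, single_apply, one_apply, ite_and]
    split_ifs <;> simp_all
  have s2 : ∑ i : A, ∑ j : A, single i j (1 : ℂ) ⊗ₖ G.submatrix (Prod.mk i) (Prod.mk j) = G := by
    ext ⟨i, k⟩ ⟨j, l⟩
    simp [Matrix.sum_apply, single_apply, ite_and]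
  have s3 := Finset.sum_comm.trans s2
  simp only [Finset.sum_erase_eq_sub (Finset.mem_univ _), pr, add_kronecker, conjTranspose_smul,
    star_trivial, s0, kronecker_smul, Finset.sum_add_distrib, Finset.sum_sub_distrib,
    ← Finset.smul_sum, s1, s2, s3, Finset.sum_const, Finset.card_univ,
    ← Nat.cast_smul_eq_nsmul ℝ]
  match_scalars <;> field_simp <;> ring

end Pool.Agent.MP_47bb2a_mp.H90
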