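import Pool.Agent.MP_47bb2a_mp.H90.Cone
import Pool.Agent.MP_47bb2a_mp.H42.Exact

/-! Off-diagonal blocks of the tests of the polar set are small. -/

open scoped ComplexOrder MatrixOrder Kronecker Topology
open Matrix Filter

set_option linter.unusedSectionVars false

namespace Pool.Agent.MP_47bb2a_mp.H90

open H97 H42

theorem num1 {s : ℝ} (h0 : 0 < s) (h1 : s ≤ 1) :
    57 / 40 * s * Real.log (57 / 40 * s) + (1 + s ^ 2) * (1 / 2 * (17 / 20 * Real.log (17 / 20))) ≤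
      s ^ 2 * Real.exp (-1) := by
  have a1 := Real.log_le_sub_one_of_pos h0
  have a2 : Real.log (57 / 40) ≤ 709 / 2000 := by
    rw [Real.log_le_iff_le_exp (by norm_num)]
    refine le_trans ?_ (Real.sum_le_exp_of_nonneg (by norm_num) 5)
    simp only [Finset.sum_range_succ, Finset.range_zero, Finset.sum_empty, Nat.factorial]
    norm_num
  have a3 : Real.log (17 / 20) ≤ -(6 / 37) := by
    have := Real.le_log_one_add_of_nonneg (show (0 : ℝ) ≤ 3 / 17 by norm_num)
    rw [show (17 / 20 : ℝ) = (1 + 3 / 17)⁻¹ by norm_num, Real.log_inv]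
    linarith
  have a4 := Real.exp_neg_one_gt_d9
  rw [Real.log_mul (by norm_num) h0.ne']
  nlinarith [mul_le_mul_of_nonneg_left a1 h0.le, mul_le_mul_of_nonneg_left a2 h0.le,
    mul_le_mul_of_nonneg_left a3 (sq_nonneg s), mul_le_mul_of_nonneg_left a4.le (sq_nonneg s),
    mul_nonneg h0.le (sub_nonneg.2 h1)]

variable {A B : Type*} [Fintype A] [Fintype B] [DecidableEq A] [DecidableEq B] [Nonempty A]
  [Nonempty B] {G S ρ : Matrix (A × B) (A × B) ℂ}

theorem polar_sep (hG : Polar (Neg A B) G) (h : ρ ∈ Sep1 A B) (h' : ρ.PosDef) : tr (G * ρ) ≤ 1 :=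
  hG.2 ρ ⟨h', ρ, h, h', by simp [D]⟩

theorem tr_sep (h : ρ ∈ Sep1 A B) : tr ρ = 1 := by rw [tr_def, (sep1_state h).2, Complex.one_re]

theorem conj_pd (g1 : G.PosDef) (hS : S.PosDef) : (S * G * S).PosDef := by
  simpa only [star_eq_conjTranspose, hS.1.eq] using hS.isUnit.posDef_star_right_conjugate_iff.2 g1

theorem var_le (hG : Polar (Neg A B) G) (g1 : G.PosDef) (hρ : ρ ∈ Sep1 A B) (hρ' : ρ.PosDef)
    (hS : S.PosDef) (h1 : tr (S * S) = 1) (hc : Cone (S * S)) {μ : ℝ} (m1 : μ ≤ tr (S * G * S))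
    (m2 : μ ^ 2 ≤ tr (S * G * S * G) - tr (S * G * S) ^ 2) : μ ≤ (60 - 17 * tr (G * ρ)) / 57 := by
  by_contra hn
  have a1 := polar_sep hG hρ hρ'
  have a2 : S * S ∈ Sep1 A B := by simpa [h1] using hc.sep (by rw [h1]; exact one_pos)
  have a3 := polar_sep hG a2 (pd_mul hS hS (Commute.refl _))
  rw [← mul_assoc, tr_comm, ← mul_assoc] at a3
  have a4 : tr ((1 / 2 : ℝ) • ρ) = 1 / 2 := by rw [map_smul, tr_sep hρ, smul_eq_mul, mul_one]
  have a5 := (hc.add ⟨1 / 2, by norm_num, ρ, hρ, rfl⟩).sep (by rw [map_add, h1, a4]; norm_num)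
  rw [map_add, h1] at a5
  have m0 := tr_pos (conj_pd g1 hS)
  have μ0 : 3 / 4 < μ := by linarith [not_le.1 hn]
  have s0 : 3 / 4 < μ / tr (S * G * S) := by
    rw [lt_div_iff₀ m0]
    linarith
  have s1 := (div_le_one m0).2 m1
  have s2 := div_mul_cancel₀ μ m0.ne'
  have n := num1 (by linarith) s1
  have l : Real.log (17 / 20) ≤ 0 := Real.log_nonpos (by norm_num) (by norm_num)
  have := test hG g1 hS h1 (pd_smul hρ' (show (0 : ℝ) < 1 / 2 by norm_num)) a5
    (w := 57 / 40 * (μ / tr (S * G * S))) (z := 17 / 20)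
    (by linarith [Real.exp_neg_one_lt_d9]) (by norm_num) (by
      rw [a4]
      generalize μ / tr (S * G * S) = s at *
      generalize tr (S * G * S) = m at *
      rw [← s2, mul_pow] at m2
      nlinarith [mul_le_mul_of_nonneg_left n (sq_nonneg m),
        mul_le_mul_of_nonneg_right m2 (Real.exp_pos (-1)).le,
        mul_le_mul_of_nonneg_right m2 (neg_nonneg.2 l)])
  rw [a4, mul_smul_comm, map_smul, smul_eq_mul, mul_assoc, s2] at this
  linarith [not_le.1 hn]

theorem proj_le (hG : Polar (Neg A B) G) (g1 : G.PosDef) (hρ : ρ ∈ Sep1 A B) (hρ' : ρ.PosDef)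
    {C : Matrix (A × B) (Fin 2) ℂ} (hC : Cᴴ * C = 1) (hc : Cone (C * Cᴴ)) :
    ((Cᴴ * G * C) 0 1).re ≤ (60 - 17 * tr (G * ρ)) / 57 := by
  by_contra hn
  have a1 := polar_sep hG hρ hρ'
  have hM := g1.posSemidef.conjTranspose_mul_mul_same C
  have e0 : C * Cᴴ * (C * Cᴴ) = C * Cᴴ := by
    rw [Matrix.mul_assoc, ← Matrix.mul_assoc Cᴴ, hC, Matrix.one_mul]
  have e1 : tr (C * Cᴴ * (C * Cᴴ)) = 2 := by
    rw [e0, tr_def, trace_mul_comm, hC]
    simp
  have e2 : tr (C * Cᴴ * G * (C * Cᴴ)) = (Cᴴ * G * C).trace.re := by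
    rw [tr_comm, ← mul_assoc, e0, tr_def, Matrix.mul_assoc, trace_mul_comm]
  have e3 : tr (C * Cᴴ * G * (C * Cᴴ) * G) = (Cᴴ * G * C * (Cᴴ * G * C)).trace.re := by
    simp only [Matrix.mul_assoc, tr_def]
    rw [trace_mul_comm]
    simp only [Matrix.mul_assoc]
  have b1 := form_cs hM.nonneg (Pi.single 0 1) (Pi.single 1 1)
  have b2 := Complex.nonneg_iff.1 (hM.diag_nonneg (i := 0))
  have b3 := Complex.nonneg_iff.1 (hM.diag_nonneg (i := 1))
  have b4 := hM.1.apply 1 0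
  generalize Cᴴ * G * C = M at *
  simp [q] at b1
  simp only [trace_fin_two, mul_apply, Fin.sum_univ_two, Complex.add_re, Complex.mul_re, ← b2.2,
    ← b3.2, ← b4, RCLike.star_def, Complex.conj_re, Complex.conj_im] at e2 e3
  have T0 : 0 < (M 0 1).re := by linarith [not_le.1 hn]
  have T1 : 2 * (M 0 1).re ≤ (M 0 0).re + (M 1 1).re :=
    le_of_sq_le_sq (by nlinarith [sq_nonneg ((M 0 0).re - (M 1 1).re)]) (add_nonneg b2.1 b3.1)
  obtain ⟨μ, μ1, μ2⟩ := exists_between (not_le.1 hn)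
  have μ0 : 0 < μ := by linarith
  have p0 := (posSemidef_self_mul_conjTranspose C)
  generalize C * Cᴴ = P at *
  let R : ℝ → Matrix (A × B) (A × B) ℂ := fun ε => P + ε • 1
  have R0 : R 0 = P := by simp [R]
  have c1 : Continuous fun ε => tr (R ε * R ε) := by
    simp only [tr_def, R]
    fun_prop
  have c2 : Continuous fun ε => tr (R ε * G * R ε) := by
    simp only [tr_def, R]
    fun_prop
  have c3 : Continuous fun ε => tr (R ε * G * R ε * G) := by
    simp only [tr_def, R]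
    fun_prop
  have d1 : ∀ᶠ ε in 𝓝 (0 : ℝ), μ * tr (R ε * R ε) < tr (R ε * G * R ε) :=
    (continuous_const.mul c1).continuousAt.eventually_lt c2.continuousAt (by
      simp only [Pi.mul_apply, R0, e1, e2]
      linarith)
  have d2 : ∀ᶠ ε in 𝓝 (0 : ℝ), μ ^ 2 * tr (R ε * R ε) ^ 2 <
      tr (R ε * G * R ε * G) * tr (R ε * R ε) - tr (R ε * G * R ε) ^ 2 :=
    (continuous_const.mul (c1.pow 2)).continuousAt.eventually_lt
      ((c3.mul c1).sub (c2.pow 2)).continuousAt (by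
      simp only [Pi.mul_apply, Pi.pow_apply, R0, e1, e2, e3]
      nlinarith [sq_nonneg ((M 0 0).re - (M 1 1).re), sq_nonneg (M 0 1).im])
  obtain ⟨ε, ⟨f1, f2⟩, ε0⟩ :=
    (((d1.and d2).filter_mono nhdsWithin_le_nhds).and (self_mem_nhdsWithin (s := Set.Ioi 0))).exists
  have ε0 : 0 < ε := ε0
  have r1 : (R ε).PosDef := PosDef.posSemidef_add p0 (pd_smul PosDef.one ε0)
  have r2 : Cone (R ε * R ε) := by
    convert (hc.smul (r := 1 + 2 * ε) (by positivity)).add (cone_one.smul (sq_nonneg ε)) using 1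
    simp only [R, mul_add, add_mul, e0, mul_smul_comm, smul_mul_assoc, mul_one, one_mul]
    module
  generalize R ε = S at *
  have t0 := tr_pos (pd_mul r1 r1 (Commute.refl _))
  have t1 := inv_pos.2 (Real.sqrt_pos.2 t0)
  have t2 : (√(tr (S * S)))⁻¹ * (√(tr (S * S)))⁻¹ = (tr (S * S))⁻¹ := by
    rw [← mul_inv, Real.mul_self_sqrt t0.le]
  refine μ1.not_ge (var_le hG g1 hρ hρ' (pd_smul r1 t1) ?_ ?_ ?_ ?_)
  · rw [smul_mul_smul_comm, t2, map_smul, smul_eq_mul, inv_mul_cancel₀ t0.ne']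
  · rw [smul_mul_smul_comm]
    exact r2.smul (mul_pos t1 t1).le
  · simp only [smul_mul_assoc, mul_smul_comm, map_smul, smul_eq_mul, ← mul_assoc, t2]
    rw [le_inv_mul_iff₀ t0]
    linarith
  · simp only [smul_mul_assoc, mul_smul_comm, map_smul, smul_eq_mul, ← mul_assoc, t2]
    refine le_of_mul_le_mul_right ?_ (pow_pos t0 2)
    refine f2.le.trans_eq ?_
    field_simp

theorem orth (hG : Polar (Neg A B) G) (g1 : G.PosDef) (hρ : ρ ∈ Sep1 A B) (hρ' : ρ.PosDef) :
    Orth ((60 - 17 * tr (G * ρ)) / 57) G := by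
  intro x y x' y' h1 h2 h3 h4 h5
  have d : ∀ (x x' : A → ℂ) (y y' : B → ℂ), star (pv x y) ⬝ᵥ pv x' y' =
      (star x ⬝ᵥ x') * (star y ⬝ᵥ y') := fun x x' y y' => by
    simp only [dotProduct, pv, Fintype.sum_prod_type, Finset.sum_mul_sum, Pi.star_apply, star_mul']
    exact Finset.sum_congr rfl fun _ _ => Finset.sum_congr rfl fun _ _ => by ring
  have h6 : (star x' ⬝ᵥ x) * (star y' ⬝ᵥ y) = 0 := by
    rw [star_dotProduct, star_dotProduct y', ← star_mul', h5, star_zero]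
  let C : Matrix (A × B) (Fin 2) ℂ := of fun p k => ![pv x y, pv x' y'] k p
  have hC : ∀ k l, (Cᴴ * C) k l = star (![pv x y, pv x' y'] k) ⬝ᵥ ![pv x y, pv x' y'] l :=
    fun k l => rfl
  refine le_of_eq_of_le ?_ (proj_le hG g1 hρ hρ' (C := C) ?_ ?_)
  · rw [Matrix.mul_assoc]
    rfl
  · ext k l
    rw [hC]
    fin_cases k <;> fin_cases l <;> simp [d, dot_self, h1, h2, h3, h4, h5, h6]
  · convert (cone_kron (posSemidef_vecMulVec_self_star x) (posSemidef_vecMulVec_self_star y)).add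
      (cone_kron (posSemidef_vecMulVec_self_star x') (posSemidef_vecMulVec_self_star y')) using 1
    ext p p'
    simp [C, mul_apply, pv, vecMulVec_apply]
    ring

end Pool.Agent.MP_47bb2a_mp.H90
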