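import Pool.Agent.MP_47bb2a_mp.H90.Kappa
import Pool.Agent.MP_47bb2a_mp.H42.Exact2

/-! The bound on product states when one party has dimension at most six. -/

open scoped ComplexOrder MatrixOrder Kronecker
open Matrix

set_option linter.unusedSectionVars false

namespace Pool.Agent.MP_47bb2a_mp.H90

open H97 H42

theorem num2 {m t w : ℝ} (h0 : 0 < m) (h1 : m ≤ 1) (ht : t = (31 + 22 * m) / 200)
    (hw : w * (m + t) = 1 + t * m) :
    1 ≤ w ∧ m * (m + t) * (w * Real.log w) ≤ (1 - m ^ 2) * Real.exp (-1) := by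
  have t0 : 0 < t := by linarith
  have t1 : t ≤ 1 := by linarith
  have s0 : 0 < m + t := by linarith
  have w1 : 1 ≤ w := by
    refine le_of_mul_le_mul_right ?_ s0
    nlinarith [mul_nonneg (sub_nonneg.2 h1) (sub_nonneg.2 t1)]
  have w0 : 0 < w := by linarith
  have a1 := Real.self_le_sinh_iff.2 (Real.log_nonneg w1)
  rw [Real.sinh_log w0] at a1
  have a2 : w * Real.log w ≤ (w ^ 2 - 1) / 2 :=
    (mul_le_mul_of_nonneg_left a1 w0.le).trans_eq (by field_simp)
  have a3 : (w ^ 2 - 1) * (m + t) ^ 2 = (1 - m ^ 2) * (1 - t ^ 2) := by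
    rw [sub_mul, ← mul_pow, hw]
    ring
  have a4 : m * (1 - t ^ 2) ≤ 2 * (m + t) * Real.exp (-1) := by
    refine le_trans ?_ (mul_le_mul_of_nonneg_left Real.exp_neg_one_gt_d9.le (by positivity))
    subst ht
    nlinarith [mul_nonneg h0.le (sub_nonneg.2 h1), pow_pos h0 3, sq_nonneg (1 - m),
      mul_nonneg h0.le (sq_nonneg (1 - m))]
  refine ⟨w1, (mul_le_mul_of_nonneg_left a2 (by positivity)).trans ?_⟩
  refine le_of_mul_le_mul_right ?_ s0
  have a5 : 0 ≤ 1 - m ^ 2 := by nlinarith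
  nlinarith [mul_le_mul_of_nonneg_left a4 a5]

variable {A B : Type*} [Fintype A] [Fintype B] [DecidableEq A] [DecidableEq B] [Nonempty A]
  [Nonempty B] {G : Matrix (A × B) (A × B) ℂ}

theorem ball_six (hd : Fintype.card A ≤ 6 ∨ Fintype.card B ≤ 6) {κ t : ℝ} (hG : G.PosSemidef)
    (h : Orth κ G) (k0 : 0 < κ) (t0 : 0 ≤ t) (ht : 5 * (t * κ) ≤ 1) : Cone (1 + t • G) := by
  have e : ∀ d : ℕ, d ≤ 6 → ((d : ℝ) - 1) * (t * κ) ≤ 1 := fun d hd => by
    have : (d : ℝ) ≤ 6 := by exact_mod_cast hd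
    nlinarith [mul_nonneg t0 k0.le]
  rcases hd with hd | hd
  · exact ball hG h k0 t0 (e _ hd)
  · convert (ball (hG.submatrix Prod.swap) h.swap k0 t0 (e _ hd)).swap using 1
    ext x y
    simp [one_apply, Prod.swap_inj]

theorem prod_pd (hd : Fintype.card A ≤ 6 ∨ Fintype.card B ≤ 6) (hG : Polar (Neg A B) G)
    (g1 : G.PosDef) {a : Matrix A A ℂ} {b : Matrix B B ℂ} (ha : a.PosDef) (hb : b.PosDef)
    (h1 : tr (a ⊗ₖ b * a ⊗ₖ b) = 1) : tr (a ⊗ₖ b * G * a ⊗ₖ b * G) ≤ 1 := by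
  have hS := ha.kronecker hb
  have c : ∀ X, Cone X → Cone (a ⊗ₖ b * X * a ⊗ₖ b) := fun X h => by
    simpa only [hS.1.eq] using h.conj a b
  generalize a ⊗ₖ b = S at *
  have a1 := pd_mul hS hS (Commute.refl _)
  have a2 : S * S ∈ Sep1 A B := by
    simpa [h1] using (c 1 cone_one).sep (by rw [mul_one, h1]; exact one_pos)
  have a3 := polar_sep hG a2 a1
  have a4 := orth hG g1 a2 a1
  rw [← mul_assoc, tr_comm, ← mul_assoc] at a3 a4
  have y0 := conj_pd g1 hS
  have m0 := tr_pos y0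
  obtain ⟨t, ht⟩ : ∃ t, t = (31 + 22 * tr (S * G * S)) / 200 := ⟨_, rfl⟩
  have t0 : 0 < t := by linarith
  have a5 := c _ (ball_six hd g1.posSemidef a4 (by linarith) t0.le (by rw [ht]; nlinarith))
  rw [mul_add, add_mul, mul_one, mul_smul_comm, smul_mul_assoc] at a5
  have a6 := a5.sep (by rw [map_add, h1]; linarith [tr_pos (pd_smul y0 t0)])
  rw [map_add, h1] at a6
  have s0 : 0 < tr (S * G * S) + t := by linarith
  have hw := div_mul_cancel₀ (1 + t * tr (S * G * S)) s0.ne'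
  obtain ⟨w1, n⟩ := num2 m0 a3 ht hw
  generalize (1 + t * tr (S * G * S)) / (tr (S * G * S) + t) = w at *
  have l := mul_nonneg (zero_le_one.trans w1) (Real.log_nonneg w1)
  by_contra hn
  have hn := not_le.1 hn
  have := test hG g1 hS h1 (pd_smul y0 t0) a6 (w := w) (z := w)
    (by linarith [Real.exp_neg_one_lt_d9]) (by linarith) (by
      rw [map_smul, smul_eq_mul]
      have : t * tr (S * G * S) * (w * Real.log w) ≤ Real.exp (-1) := by
        nlinarith [mul_nonneg (sq_nonneg (tr (S * G * S))) l,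
          mul_nonneg (sq_nonneg (tr (S * G * S))) (Real.exp_pos (-1)).le]
      nlinarith [mul_le_mul_of_nonneg_left this (sub_pos.2 hn).le])
  rw [mul_smul_comm, map_smul, map_smul, smul_eq_mul, smul_eq_mul, tr_comm G] at this
  nlinarith [mul_pos (mul_pos (zero_lt_one.trans_le w1) t0) (sub_pos.2 hn)]

theorem prod_one (hd : Fintype.card A ≤ 6 ∨ Fintype.card B ≤ 6) (hG : Polar (Neg A B) G)
    {a : Matrix A A ℂ} {b : Matrix B B ℂ} (ha : a.PosDef) (hb : b.PosDef)
    (h1 : tr (a ⊗ₖ b * a ⊗ₖ b) = 1) : tr (a ⊗ₖ b * G * a ⊗ₖ b * G) ≤ 1 := by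
  have hS := ha.kronecker hb
  have key : ∀ t : ℝ, 0 < t → tr (a ⊗ₖ b * G * a ⊗ₖ b * G) ≤ (1 + t) ^ 2 := fun t ht => by
    have t1 : 0 < (1 + t)⁻¹ := by positivity
    have g1 : (G + t • 1).PosDef := PosDef.posSemidef_add hG.1 (pd_smul PosDef.one ht)
    have := prod_pd hd (G := (1 + t)⁻¹ • (G + t • 1)) ⟨(pd_smul g1 t1).posSemidef, fun X hX => by
      rw [← tr_def, smul_mul_assoc, map_smul, smul_eq_mul, inv_mul_le_one₀ (by positivity),
        add_mul, map_add, smul_mul_assoc, one_mul, map_smul, smul_eq_mul]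
      exact add_le_add (hG.2 X hX) (mul_le_of_le_one_right ht.le (neg_tr hX))⟩
      (pd_smul g1 t1) ha hb h1
    generalize a ⊗ₖ b = S at *
    simp only [smul_mul_assoc, mul_smul_comm, map_smul, smul_eq_mul, ← mul_assoc, ← pow_two,
      inv_pow] at this
    rw [inv_mul_le_one₀ (by positivity)] at this
    refine le_trans ?_ this
    have p1 := tr_nn (hG.1.mul_mul_conjTranspose_same S).nonneg
    have p2 := tr_mul_nn (pd_nn (pd_mul hS hS (Commute.refl _))) hG.1.nonneg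
    simp only [mul_add, add_mul, mul_smul_comm, smul_mul_assoc, mul_one, map_add, map_smul,
      smul_eq_mul, h1, hS.1.eq] at p1 ⊢
    nlinarith [mul_pos ht ht]
  refine le_of_eps (c := 3) fun t ht => ?_
  refine (key (min t 1) (lt_min ht one_pos)).trans ?_
  nlinarith [min_le_left t 1, min_le_right t 1, lt_min ht one_pos]

theorem prod_le (hd : Fintype.card A ≤ 6 ∨ Fintype.card B ≤ 6) (G : Matrix (A × B) (A × B) ℂ)
    (hG : Polar (Neg A B) G) (a : Matrix A A ℂ) (b : Matrix B B ℂ) (ha : a.PosDef)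
    (hb : b.PosDef) : tr (a ⊗ₖ b * G * a ⊗ₖ b * G) ≤ tr (a * a) * tr (b * b) := by
  have a2 := pd_mul ha ha (Commute.refl _)
  have b2 := pd_mul hb hb (Commute.refl _)
  have t0 := mul_pos (tr_pos a2) (tr_pos b2)
  have t1 := inv_pos.2 (Real.sqrt_pos.2 t0)
  have t2 : (√(tr (a * a) * tr (b * b)))⁻¹ * (√(tr (a * a) * tr (b * b)))⁻¹ =
      (tr (a * a) * tr (b * b))⁻¹ := by
    rw [← mul_inv, Real.mul_self_sqrt t0.le]
  have e : tr (a ⊗ₖ b * a ⊗ₖ b) = tr (a * a) * tr (b * b) := by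
    rw [← mul_kronecker_mul, tr_def, trace_kronecker, tr_eq (pd_nn a2), tr_eq (pd_nn b2),
      ← Complex.ofReal_mul, Complex.ofReal_re]
  have := prod_one hd hG (pd_smul ha t1) hb (by
    rw [smul_kronecker, smul_mul_smul_comm, t2, map_smul, e, smul_eq_mul, inv_mul_cancel₀ t0.ne'])
  simp only [smul_kronecker, smul_mul_assoc, mul_smul_comm, map_smul, smul_eq_mul, ← mul_assoc,
    t2] at this
  rwa [inv_mul_le_one₀ t0] at this

end Pool.Agent.MP_47bb2a_mp.H90
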